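import Pool.Agent.Helper70.GB.Types

open Set MeasureTheory Filter Topology

namespace GB

theorem ae_affine {p : ℝ → Prop} (h : ∀ᵐ x : ℝ, p x) {τ : ℤ} (hτ : τ = 1 ∨ τ = -1) (a c : ℝ) :
    ∀ᵐ x : ℝ, p ((τ : ℝ) * (x + a) + c) := by
  rcases hτ with rfl | rfl
  · have h1 := (measurePreserving_add_right volume (a + c)).quasiMeasurePreserving.ae h
    filter_upwards [h1] with x hx
    have e : ((1 : ℤ) : ℝ) * (x + a) + c = x + (a + c) := by push_cast; ring
    rwa [e]
  · have h1 := ((measurePreserving_add_right volume (c - a)).comp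
      (Measure.measurePreserving_neg volume)).quasiMeasurePreserving.ae h
    filter_upwards [h1] with x hx
    have e : ((-1 : ℤ) : ℝ) * (x + a) + c = -x + (c - a) := by push_cast; ring
    rw [e]
    exact hx

/-- The boxes. -/
noncomputable def Bx (m R : ℕ) : Finset (Fin m → ℤ) := Fintype.piFinset fun _ => Finset.Icc (-R : ℤ) R

theorem mem_Bx {m R : ℕ} {n : Fin m → ℤ} : n ∈ Bx m R ↔ ∀ i, -(R : ℤ) ≤ n i ∧ n i ≤ R := by
  simp [Bx, Fintype.mem_piFinset]

/-- Shift of a box in one direction. -/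
theorem box_shift {m : ℕ} (R : ℕ) (j : Fin m) {s : ℤ} (hs : s = 1 ∨ s = -1)
    (V : (Fin m → ℤ) → ℝ) {M : ℝ} (hM : ∀ n, |V n| ≤ M) :
    |∑ n ∈ Bx m R, V n - ∑ n ∈ Bx m R, V (n + Pi.single j s)| ≤
      2 * (2 * R + 1) ^ (m - 1) * M := by
  classical
  set B := Bx m R with hB
  set B' := B.map (addRightEmbedding (Pi.single j s : Fin m → ℤ)) with hB'
  have h1 : ∑ n ∈ B, V (n + Pi.single j s) = ∑ n ∈ B', V n := by
    rw [hB', Finset.sum_map]
    rfl
  have hc : B'.card = B.card := Finset.card_map _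
  have h2 : (B \ B').card ≤ (2 * R + 1) ^ (m - 1) := by
    have hsub : B \ B' ⊆ Fintype.piFinset
        (Function.update (fun _ : Fin m => Finset.Icc (-R : ℤ) R) j {-(s * R)}) := by
      intro n hn
      rw [Finset.mem_sdiff] at hn
      have hn1 := mem_Bx.mp hn.1
      have hnj : n j = -(s * R) := by
        by_contra hne
        apply hn.2
        rw [hB', Finset.mem_map]
        refine ⟨n - Pi.single j s, ?_, ?_⟩
        · refine mem_Bx.mpr fun i => ?_
          by_cases hij : i = j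
          · subst hij
            have e : (n - Pi.single i s : Fin m → ℤ) i = n i - s := by simp
            rw [e]
            have := hn1 i
            rcases hs with rfl | rfl
            · constructor <;> omega
            · constructor <;> omega
          · have e : (n - Pi.single j s : Fin m → ℤ) i = n i := by
              simp [Pi.single_eq_of_ne hij]
            rw [e]
            exact hn1 i
        · simp
      rw [Fintype.mem_piFinset]
      intro i
      by_cases hij : i = j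
      · subst hij
        rw [Function.update_self, hnj]
        exact Finset.mem_singleton_self _
      · rw [Function.update_of_ne hij, Finset.mem_Icc]
        exact hn1 i
    refine (Finset.card_le_card hsub).trans (le_of_eq ?_)
    rw [Fintype.card_piFinset, ← Finset.mul_prod_erase _ _ (Finset.mem_univ j)]
    rw [Function.update_self, Finset.card_singleton, one_mul,
      Finset.prod_congr rfl (g := fun _ => 2 * R + 1) fun i hi => by
        rw [Function.update_of_ne (Finset.ne_of_mem_erase hi), Int.card_Icc]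
        omega]
    rw [Finset.prod_const, Finset.card_erase_of_mem (Finset.mem_univ j), Finset.card_univ,
      Fintype.card_fin]
  have h3 : (B' \ B).card ≤ (2 * R + 1) ^ (m - 1) := by
    rw [Finset.card_sdiff_comm hc]
    exact h2
  have hM0 : 0 ≤ M := (abs_nonneg _).trans (hM 0)
  have h4 : ∀ T : Finset (Fin m → ℤ), T.card ≤ (2 * R + 1) ^ (m - 1) →
      |∑ n ∈ T, V n| ≤ (2 * R + 1) ^ (m - 1) * M := by
    intro T hT
    refine (Finset.abs_sum_le_sum_abs _ _).trans ?_
    refine (Finset.sum_le_card_nsmul _ _ M fun n _ => hM n).trans ?_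
    rw [nsmul_eq_mul]
    have : (T.card : ℝ) ≤ (2 * R + 1) ^ (m - 1) := by exact_mod_cast hT
    exact mul_le_mul_of_nonneg_right this hM0
  rw [h1, ← Finset.sum_sdiff_sub_sum_sdiff]
  have h5 := h4 _ h2
  have h6 := h4 _ h3
  have h7 := abs_sub (∑ n ∈ B \ B', V n) (∑ n ∈ B' \ B, V n)
  refine h7.trans ?_
  linarith

theorem config_sum (α : ℝ) (m : ℕ) (χ : Fin m → ℝ → ℝ) (v : Fin m → ℝ)
    (hχ : ∀ j, ∀ ε > 0, ∃ N₀ : ℕ, ∀ N : ℕ, N₀ ≤ N → ∀ x : ℝ,
      |∑ l ∈ Finset.range N, χ j (x + l * α) - N * v j| ≤ ε * N)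
    (σ b : Fin m → ℝ) (hσ : ∀ j, σ j = 1 ∨ σ j = -1) (F : ℝ → ℝ)
    (hF : ∀ᵐ x : ℝ, F x = ∑ j, (χ j x - χ j (σ j * (x - b j)))) (ε : ℝ) (hε : 0 < ε) :
    ∃ P₀ : ℕ, ∀ P : ℕ, P₀ ≤ P → ∀ R : ℕ, ∀ᵐ x : ℝ,
      |cfgSum α b P R F x| ≤ ε * P * (2 * R + 1) ^ m := by
  classical
  have hδ : 0 < ε / (4 * m + 1) := by positivity
  set δ := ε / (4 * m + 1) with hδ'
  choose N₀ hN₀ using fun j => hχ j δ hδ
  refine ⟨∑ j, N₀ j, fun P hP R => ?_⟩
  have hPj : ∀ j, N₀ j ≤ P := fun j =>
    (Finset.single_le_sum (fun i _ => Nat.zero_le _) (Finset.mem_univ j)).trans hP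
  -- the centred sums
  have hS : ∀ j, ∀ y : ℝ, |∑ l ∈ Finset.range P, (χ j (y + l * α) - v j)| ≤ δ * P := by
    intro j y
    rw [Finset.sum_sub_distrib, Finset.sum_const, Finset.card_range, nsmul_eq_mul]
    exact hN₀ j P (hPj j) y
  have hS' : ∀ j, ∀ τ : ℤ, (τ = 1 ∨ τ = -1) → ∀ x c : ℝ,
      |∑ l ∈ Finset.range P, (χ j ((τ : ℝ) * (x + l * α) + c) - v j)| ≤ δ * P := by
    intro j τ hτ x c
    rcases hτ with rfl | rfl
    · have e : ∀ l : ℕ, ((1 : ℤ) : ℝ) * (x + l * α) + c = (x + c) + l * α := fun l => by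
        push_cast; ring
      simp only [e]
      exact hS j _
    · have h1 := hS j (-x - (P - 1) * α + c)
      rw [← Finset.sum_range_reflect] at h1
      have e : ∑ l ∈ Finset.range P, (χ j (((-1 : ℤ) : ℝ) * (x + l * α) + c) - v j) =
          ∑ l ∈ Finset.range P,
            (χ j (-x - (P - 1) * α + c + ((P - 1 - l : ℕ) : ℝ) * α) - v j) := by
        refine Finset.sum_congr rfl fun l hl => ?_
        have hl' := Finset.mem_range.mp hl
        have e2 : ((P - 1 - l : ℕ) : ℝ) = (P : ℝ) - 1 - l := by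
          have : P - 1 - l = P - (1 + l) := by omega
          rw [this, Nat.cast_sub (by omega)]
          push_cast
          ring
        rw [e2]
        congr 2
        push_cast
        ring
      rw [e]
      exact h1
  have hall : ∀ᵐ x : ℝ, ∀ (τ : {τ : ℤ // τ = 1 ∨ τ = -1}) (n : Fin m → ℤ) (k : ℤ) (l : ℕ),
      F ((τ.1 : ℝ) * (x + l * α) + (∑ j, (n j : ℝ) * b j + k * α)) =
        ∑ j, (χ j ((τ.1 : ℝ) * (x + l * α) + (∑ j, (n j : ℝ) * b j + k * α)) -
          χ j (σ j * ((τ.1 : ℝ) * (x + l * α) + (∑ j, (n j : ℝ) * b j + k * α) - b j))) := by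
    refine ae_all_iff.mpr fun τ => ae_all_iff.mpr fun n => ae_all_iff.mpr fun k =>
      ae_all_iff.mpr fun l => ?_
    exact ae_affine hF τ.2 _ _
  filter_upwards [hall] with x hx
  -- the box functions
  let W : Fin m → ℤ → (Fin m → ℤ) → ℤ → ℝ := fun j τ n k =>
    ∑ l ∈ Finset.range P, (χ j ((τ : ℝ) * (x + l * α) + (∑ i, (n i : ℝ) * b i + k * α)) - v j)
  have hW : ∀ j τ n k, (τ = 1 ∨ τ = -1) → |W j τ n k| ≤ δ * P := fun j τ n k hτ =>
    hS' j τ hτ x _
  let V : Fin m → (Fin m → ℤ) → ℝ := fun j n =>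
    ∑ τ ∈ ({1, -1} : Finset ℤ), ∑ k ∈ Finset.Icc (-R : ℤ) R, W j τ n k
  have hV : ∀ j n, |V j n| ≤ 2 * (2 * R + 1) * (δ * P) := by
    intro j n
    have hV1 : ∀ τ : ℤ, (τ = 1 ∨ τ = -1) → |∑ k ∈ Finset.Icc (-R : ℤ) R, W j τ n k| ≤
        (2 * R + 1) * (δ * P) := by
      intro τ hτ
      refine (Finset.abs_sum_le_sum_abs _ _).trans ?_
      refine (Finset.sum_le_card_nsmul _ _ (δ * P) fun k _ => hW j τ n k hτ).trans ?_
      rw [nsmul_eq_mul, Int.card_Icc]
      have : ((R : ℤ) + 1 - -(R : ℤ)).toNat = 2 * R + 1 := by omega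
      rw [this]
      push_cast
      exact le_rfl
    have e : V j n = ∑ k ∈ Finset.Icc (-R : ℤ) R, W j 1 n k +
        ∑ k ∈ Finset.Icc (-R : ℤ) R, W j (-1) n k := by
      simp only [V]
      rw [Finset.sum_pair (by decide)]
    rw [e]
    refine (abs_add_le _ _).trans ?_
    have h1 := hV1 1 (Or.inl rfl)
    have h2 := hV1 (-1) (Or.inr rfl)
    linarith
  -- symmetries
  have hneg : ∀ (f : ℤ → ℝ), ∑ k ∈ Finset.Icc (-R : ℤ) R, f (-k) =
      ∑ k ∈ Finset.Icc (-R : ℤ) R, f k := by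
    intro f
    refine Finset.sum_bij (fun k _ => -k) ?_ ?_ ?_ ?_
    · intro k hk
      rw [Finset.mem_Icc] at hk ⊢
      omega
    · intro k _ k' _ h
      simpa using h
    · intro k hk
      rw [Finset.mem_Icc] at hk
      exact ⟨-k, Finset.mem_Icc.mpr (by omega), neg_neg k⟩
    · intro k _
      rfl
  have hnegB : ∀ (f : (Fin m → ℤ) → ℝ), ∑ n ∈ Bx m R, f (-n) = ∑ n ∈ Bx m R, f n := by
    intro f
    refine Finset.sum_bij (fun k _ => -k) ?_ ?_ ?_ ?_
    · intro k hk
      rw [mem_Bx] at hk ⊢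
      intro i
      have := hk i
      simp only [Pi.neg_apply]
      omega
    · intro k _ k' _ h
      simpa using h
    · intro k hk
      rw [mem_Bx] at hk
      refine ⟨-k, mem_Bx.mpr fun i => ?_, neg_neg k⟩
      have := hk i
      simp only [Pi.neg_apply]
      omega
    · intro k _
      rfl
  have hτs : ∀ (f : ℤ → ℝ), ∑ τ ∈ ({1, -1} : Finset ℤ), f (-τ) =
      ∑ τ ∈ ({1, -1} : Finset ℤ), f τ := by
    intro f
    rw [Finset.sum_pair (by decide), Finset.sum_pair (by decide), neg_neg, add_comm]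
  -- the expansion
  have hexp : cfgSum α b P R F x = ∑ j, (∑ n ∈ Bx m R, V j n -
      ∑ n ∈ Bx m R, V j (n + Pi.single j (if σ j = 1 then -1 else 1))) := by
    have e1 : cfgSum α b P R F x = ∑ τ ∈ ({1, -1} : Finset ℤ), ∑ n ∈ Bx m R,
        ∑ k ∈ Finset.Icc (-R : ℤ) R, ∑ j, (W j τ n k -
          ∑ l ∈ Finset.range P, (χ j (σ j * ((τ : ℝ) * (x + l * α) +
            (∑ i, (n i : ℝ) * b i + k * α) - b j)) - v j)) := by
      unfold cfgSum
      refine Finset.sum_congr rfl fun τ hτ => Finset.sum_congr rfl fun n _ =>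
        Finset.sum_congr rfl fun k _ => ?_
      have hτ' : τ = 1 ∨ τ = -1 := by simpa using hτ
      rw [Finset.sum_congr rfl fun l _ => hx ⟨τ, hτ'⟩ n k l]
      rw [Finset.sum_comm]
      refine Finset.sum_congr rfl fun j _ => ?_
      simp only [W]
      rw [← Finset.sum_sub_distrib]
      refine Finset.sum_congr rfl fun l _ => ?_
      ring
    rw [e1]
    have e2 : ∀ (g : Fin m → ℤ → (Fin m → ℤ) → ℤ → ℝ), ∑ τ ∈ ({1, -1} : Finset ℤ),
        ∑ n ∈ Bx m R, ∑ k ∈ Finset.Icc (-R : ℤ) R, ∑ j, g j τ n k =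
        ∑ j, ∑ n ∈ Bx m R, ∑ τ ∈ ({1, -1} : Finset ℤ), ∑ k ∈ Finset.Icc (-R : ℤ) R,
          g j τ n k := by
      intro g
      rw [Finset.sum_comm]
      have : ∀ n : Fin m → ℤ, ∑ τ ∈ ({1, -1} : Finset ℤ), ∑ k ∈ Finset.Icc (-R : ℤ) R,
          ∑ j, g j τ n k = ∑ j, ∑ τ ∈ ({1, -1} : Finset ℤ), ∑ k ∈ Finset.Icc (-R : ℤ) R,
            g j τ n k := by
        intro n
        have h1 : ∀ τ : ℤ, ∑ k ∈ Finset.Icc (-R : ℤ) R, ∑ j, g j τ n k =
            ∑ j, ∑ k ∈ Finset.Icc (-R : ℤ) R, g j τ n k := fun τ => Finset.sum_comm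
        rw [Finset.sum_congr rfl fun τ _ => h1 τ, Finset.sum_comm]
      rw [Finset.sum_congr rfl fun n _ => this n, Finset.sum_comm]
    rw [e2]
    refine Finset.sum_congr rfl fun j _ => ?_
    have e4 : ∑ n ∈ Bx m R, V j n - ∑ n ∈ Bx m R, ∑ τ ∈ ({1, -1} : Finset ℤ),
        ∑ k ∈ Finset.Icc (-R : ℤ) R, ∑ l ∈ Finset.range P, (χ j (σ j * ((τ : ℝ) *
          (x + l * α) + (∑ i, (n i : ℝ) * b i + k * α) - b j)) - v j) =
        ∑ n ∈ Bx m R, ∑ τ ∈ ({1, -1} : Finset ℤ), ∑ k ∈ Finset.Icc (-R : ℤ) R, (W j τ n k -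
          ∑ l ∈ Finset.range P, (χ j (σ j * ((τ : ℝ) * (x + l * α) +
            (∑ i, (n i : ℝ) * b i + k * α) - b j)) - v j)) := by
      simp only [Finset.sum_sub_distrib, V]
    rw [← e4]
    congr 1
    rcases hσ j with hj | hj
    · rw [if_pos hj]
      refine Finset.sum_congr rfl fun n _ => Finset.sum_congr rfl fun τ _ =>
        Finset.sum_congr rfl fun k _ => ?_
      simp only [W]
      refine Finset.sum_congr rfl fun l _ => ?_
      congr 2
      rw [hj]
      have : ∑ i, ((n + Pi.single j (-1) : Fin m → ℤ) i : ℝ) * b i =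
          ∑ i, (n i : ℝ) * b i - b j := by
        have e3 : ∀ i, ((n + Pi.single j (-1) : Fin m → ℤ) i : ℝ) * b i =
            (n i : ℝ) * b i + (if i = j then -b j else 0) := by
          intro i
          by_cases hij : i = j
          · subst hij
            simp
            ring
          · simp [Pi.single_eq_of_ne hij, hij]
        simp only [e3, Finset.sum_add_distrib, Finset.sum_ite_eq', Finset.mem_univ, if_true]
        ring
      rw [this]
      ring
    · have hj1 : ¬ σ j = 1 := by rw [hj]; norm_num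
      rw [if_neg hj1]
      refine Eq.trans ?_ (hnegB fun n => V j (n + Pi.single j 1))
      refine Finset.sum_congr rfl fun n _ => ?_
      simp only [V]
      rw [← hτs]
      refine Finset.sum_congr rfl fun τ _ => ?_
      rw [← hneg]
      refine Finset.sum_congr rfl fun k _ => ?_
      simp only [W]
      refine Finset.sum_congr rfl fun l _ => ?_
      congr 2
      rw [hj]
      have : ∑ i, ((-n + Pi.single j 1 : Fin m → ℤ) i : ℝ) * b i =
          -∑ i, (n i : ℝ) * b i + b j := by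
        have e3 : ∀ i, ((-n + Pi.single j 1 : Fin m → ℤ) i : ℝ) * b i =
            -((n i : ℝ) * b i) + (if i = j then b j else 0) := by
          intro i
          by_cases hij : i = j
          · subst hij
            simp
            ring
          · simp [Pi.single_eq_of_ne hij, hij]
        simp only [e3, Finset.sum_add_distrib, Finset.sum_ite_eq', Finset.mem_univ, if_true,
          Finset.sum_neg_distrib]
      rw [this]
      push_cast
      ring
  rw [hexp]
  refine (Finset.abs_sum_le_sum_abs _ _).trans ?_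
  have hsh : ∀ j : Fin m, |∑ n ∈ Bx m R, V j n -
      ∑ n ∈ Bx m R, V j (n + Pi.single j (if σ j = 1 then -1 else 1))| ≤
      4 * (2 * R + 1) ^ m * (δ * P) := by
    intro j
    have h1 := box_shift R j (s := if σ j = 1 then -1 else 1)
      (by by_cases h : σ j = 1 <;> simp [h]) (V j) (hV j)
    refine h1.trans (le_of_eq ?_)
    have hm : m - 1 + 1 = m := Nat.succ_pred_eq_of_pos j.pos
    have : ((2 : ℝ) * R + 1) ^ m = (2 * R + 1) ^ (m - 1) * (2 * R + 1) := by
      rw [← pow_succ, hm]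
    rw [this]
    ring
  refine (Finset.sum_le_card_nsmul _ _ _ fun j _ => hsh j).trans ?_
  rw [nsmul_eq_mul, Finset.card_univ, Fintype.card_fin]
  have h1 : (m : ℝ) * (4 * (2 * R + 1) ^ m * (δ * P)) =
      (4 * m * δ) * (P * (2 * R + 1) ^ m) := by ring
  have h2 : 4 * (m : ℝ) * δ ≤ ε := by
    rw [hδ']
    rw [mul_div_assoc', div_le_iff₀ (by positivity)]
    nlinarith
  rw [h1, mul_assoc ε]
  exact mul_le_mul_of_nonneg_right h2 (by positivity)

end GB
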