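import Pool.Agent.Helper70.GB.Types

open Set MeasureTheory Filter Topology

namespace GB

/-- Isometries of the line. -/
theorem isometry_real (g : ℝ ≃ᵢ ℝ) :
    ∃ σ c : ℝ, (σ = 1 ∨ σ = -1) ∧ ∀ x, g x = σ * x + c := by
  have hL : ∀ x, g.toRealLinearIsometryEquiv x = g x - g 0 :=
    fun x => g.toRealLinearIsometryEquiv_apply x
  refine ⟨g.toRealLinearIsometryEquiv 1, g 0, ?_, fun x => ?_⟩
  · have h1 := g.toRealLinearIsometryEquiv.norm_map 1
    rw [norm_one, Real.norm_eq_abs] at h1
    exact eq_or_eq_neg_of_abs_eq h1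
  · have h2 : g.toRealLinearIsometryEquiv x = x * g.toRealLinearIsometryEquiv 1 := by
      have := g.toRealLinearIsometryEquiv.map_smul x (1 : ℝ)
      simpa using this
    have h3 := hL x
    linarith

theorem fin_per {P : Set ℝ} (hP : Bornology.IsBounded P) (x : ℝ) :
    {u : ℤ | x + u ∈ P}.Finite := by
  obtain ⟨R, hR⟩ := hP.subset_closedBall 0
  refine (Set.finite_Icc (⌊-R - x⌋) (⌈R - x⌉)).subset fun u hu => ?_
  have h := hR hu
  rw [Metric.mem_closedBall, Real.dist_eq, sub_zero, abs_le] at h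
  constructor
  · have : (⌊-R - x⌋ : ℝ) ≤ u := (Int.floor_le _).trans (by linarith [h.1])
    exact_mod_cast this
  · have : (u : ℝ) ≤ ⌈R - x⌉ := le_trans (by linarith [h.2]) (Int.le_ceil _)
    exact_mod_cast this

theorem perCount_iUnion {k : ℕ} {P : Fin k → Set ℝ} (hb : ∀ i, Bornology.IsBounded (P i))
    (hd : Pairwise fun i j => Disjoint (P i) (P j)) (x : ℝ) :
    perCount (⋃ i, P i) x = ∑ i, perCount (P i) x := by
  have h1 : {u : ℤ | x + u ∈ ⋃ i, P i} = ⋃ i, {u : ℤ | x + u ∈ P i} := by
    ext u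
    simp
  unfold perCount
  rw [h1, Set.ncard_iUnion_of_finite (fun i => fin_per (hb i) x), finsum_eq_sum_of_fintype]
  intro i j hij
  rw [Function.onFun, Set.disjoint_left]
  intro u hu hu'
  exact Set.disjoint_left.mp (hd hij) hu hu'

/-- The counting function of the image under an isometry. -/
theorem perCount_image {g : ℝ ≃ᵢ ℝ} {σ c : ℝ} (hσ : σ = 1 ∨ σ = -1)
    (hg : ∀ x, g x = σ * x + c) (P : Set ℝ) (x : ℝ) :
    perCount (g '' P) x = perCount P (σ * (x - c)) := by
  have h1 : ∀ y, y ∈ g '' P ↔ σ * (y - c) ∈ P := by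
    intro y
    constructor
    · rintro ⟨z, hz, rfl⟩
      rw [hg]
      have : σ * (σ * z + c - c) = z := by
        rcases hσ with rfl | rfl <;> ring
      rwa [this]
    · intro hy
      refine ⟨_, hy, ?_⟩
      rw [hg]
      rcases hσ with rfl | rfl <;> ring
  unfold perCount
  rcases hσ with rfl | rfl
  · congr 1
    ext u
    simp only [Set.mem_ofPred_eq, h1]
    have : (1 : ℝ) * (x + u - c) = 1 * (x - c) + u := by ring
    rw [this]
  · have h2 : {u : ℤ | x + u ∈ g '' P} = (Equiv.neg ℤ) '' {u : ℤ | -1 * (x - c) + u ∈ P} := by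
      ext u
      simp only [Set.mem_ofPred_eq, h1, Set.mem_image, Equiv.neg_apply]
      constructor
      · intro hu
        refine ⟨-u, ?_, neg_neg u⟩
        have : (-1 : ℝ) * (x - c) + ((-u : ℤ) : ℝ) = -1 * (x + u - c) := by push_cast; ring
        rwa [this]
      · rintro ⟨w, hw, rfl⟩
        have : (-1 : ℝ) * (x + ((-w : ℤ) : ℝ) - c) = -1 * (x - c) + w := by push_cast; ring
        rwa [this]
    rw [h2, Set.ncard_image_of_injective _ (Equiv.neg ℤ).injective]

/-- The regularized union of finitely many open sets has almost everywhere the same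
counting function as the union. -/
theorem perCount_interior {k : ℕ} {P : Fin k → Set ℝ} (ho : ∀ i, IsOpen (P i))
    (hfr : ∀ i, volume (frontier (P i)) = 0) :
    ∀ᵐ x : ℝ, perCount (interior (closure (⋃ i, P i))) x = perCount (⋃ i, P i) x := by
  have hN : volume (⋃ i, frontier (P i)) = 0 := measure_iUnion_null hfr
  have h1 : ∀ u : ℤ, ∀ᵐ x : ℝ, x + (u : ℝ) ∉ ⋃ i, frontier (P i) := by
    intro u
    have h2 := (measurePreserving_add_right volume (u : ℝ)).quasiMeasurePreserving.preimage_null hN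
    rw [ae_iff]
    simpa [Set.preimage] using h2
  have h3 : ∀ᵐ x : ℝ, ∀ u : ℤ, x + (u : ℝ) ∉ ⋃ i, frontier (P i) := ae_all_iff.mpr h1
  filter_upwards [h3] with x hx
  unfold perCount
  congr 1
  ext u
  simp only [Set.mem_ofPred_eq]
  constructor
  · intro hu
    have h4 := interior_subset hu
    have h5 : closure (⋃ i, P i) = ⋃ i, closure (P i) := closure_iUnion_of_finite _
    rw [h5] at h4
    obtain ⟨i, hi⟩ := Set.mem_iUnion.mp h4
    by_contra hc
    apply hx u
    refine Set.mem_iUnion.mpr ⟨i, ?_⟩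
    rw [(ho i).frontier_eq]
    exact ⟨hi, fun h => hc (Set.mem_iUnion.mpr ⟨i, h⟩)⟩
  · intro hu
    exact interior_maximal subset_closure (isOpen_iUnion ho) hu

theorem frontier_image_null {g : ℝ ≃ᵢ ℝ} {P : Set ℝ} (h : volume (frontier P) = 0) :
    volume (frontier (g '' P)) = 0 := by
  obtain ⟨σ, c, hσ, hg⟩ := isometry_real g
  have h1 : frontier (g '' P) = g '' frontier P := (g.toHomeomorph.image_frontier P).symm
  have h2 : g '' frontier P = (fun x => σ * (x - c)) ⁻¹' frontier P := by
    ext y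
    constructor
    · rintro ⟨z, hz, rfl⟩
      rw [Set.mem_preimage, hg]
      have : σ * (σ * z + c - c) = z := by
        rcases hσ with rfl | rfl <;> ring
      rwa [this]
    · intro hy
      refine ⟨_, hy, ?_⟩
      rw [hg]
      rcases hσ with rfl | rfl <;> ring
  rw [h1, h2]
  have h3 := measurePreserving_sub_right volume c
  rcases hσ with rfl | rfl
  · have h4 := h3.quasiMeasurePreserving.preimage_null h
    simpa only [one_mul] using h4
  · have h4 := ((Measure.measurePreserving_neg volume).comp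
      h3).quasiMeasurePreserving.preimage_null h
    have h5 : (fun x : ℝ => -1 * (x - c)) = Neg.neg ∘ fun x => x - c := by
      funext x
      simp
    rw [h5]
    exact h4

theorem flux_identity (A B : Set ℝ) (hA : IsGeomBody A) (hB : IsGeomBody B)
    (h : EquidecGeom A B) :
    ∃ (m : ℕ) (D : Fin m → Set ℝ) (σ b : Fin m → ℝ), (∀ j, σ j = 1 ∨ σ j = -1) ∧
      (∀ j, Bornology.IsBounded (D j) ∧ volume (frontier (D j)) = 0) ∧
      ∀ᵐ x : ℝ, (perCount A x : ℝ) - perCount B x =
        ∑ j, ((perCount (D j) x : ℝ) - perCount (D j) (σ j * (x - b j))) := by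
  obtain ⟨k, P, g, hP, hd, hAe, hd', hBe⟩ := h
  choose σ c hσ hg using fun j => isometry_real (g j)
  have ho : ∀ i, IsOpen (P i) := fun i => by
    rw [← (hP i).2.1]
    exact isOpen_interior
  have ho' : ∀ i, IsOpen (g i '' P i) := fun i => (g i).toHomeomorph.isOpenMap _ (ho i)
  have hb' : ∀ i, Bornology.IsBounded (g i '' P i) := fun i =>
    (g i).isometry.lipschitz.isBounded_image (hP i).1
  refine ⟨k, P, σ, c, hσ, fun j => ⟨(hP j).1, (hP j).2.2⟩, ?_⟩
  filter_upwards [perCount_interior ho fun i => (hP i).2.2,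
    perCount_interior ho' fun i => frontier_image_null (hP i).2.2] with x hx hx'
  rw [hAe, hBe, hx, hx', perCount_iUnion (fun i => (hP i).1) hd, perCount_iUnion hb' hd',
    Finset.sum_sub_distrib]
  push_cast
  congr 1
  refine Finset.sum_congr rfl fun j _ => ?_
  rw [perCount_image (hσ j) (hg j)]

end GB
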